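import Pool.Agent.W345.GK.Cl2

/-! `C_P / X` is an Eisenstein polynomial. -/

set_option autoImplicit false

open Polynomial Finset

namespace Pool.Agent.W561.GK

open Pool.Agent.W345.GK

theorem cyb (h1 : S_C1) (h2 : S_C2) : S_CYB := by
  classical
  intro k _ _ P hP hirr
  obtain ⟨hform, hbr0, -, hbrd, -⟩ := h1 k
  have hdvd := h2 k P hP hirr
  set q : ℕ := Fintype.card k with hq
  set d : ℕ := P.natDegree with hd
  have hq2 : 1 < q := Fintype.one_lt_card
  have hdpos : 0 < d := hirr.natDegree_pos
  have hqpos : ∀ i, 0 < q ^ i := fun i => pow_pos (by omega) i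
  have hP0 : P ≠ 0 := hirr.ne_zero
  have hcoeff : ∀ n, (car P).coeff n = ∑ i ∈ range (d + 1), if n = q ^ i then br P i else 0 := by
    intro n
    conv_lhs => rw [hform P]
    rw [finset_sum_coeff]
    refine Finset.sum_congr rfl fun i _ => ?_
    rw [coeff_C_mul, coeff_X_pow]
    split_ifs <;> simp
  have hc0 : (car P).coeff 0 = 0 := by
    rw [hcoeff]
    refine Finset.sum_eq_zero fun i _ => ?_
    rw [if_neg (hqpos i).ne]
  have hctop : (car P).coeff (q ^ d) = 1 := hbrd P hP
  have hc1 : (car P).coeff 1 = P := by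
    have := hbr0 P
    unfold br at this
    rw [pow_zero] at this
    exact this
  have hnle : (car P).natDegree ≤ q ^ d := by
    rw [natDegree_le_iff_coeff_eq_zero]
    intro n hn
    rw [hcoeff]
    refine Finset.sum_eq_zero fun i hi => ?_
    have hi' : i ≤ d := by
      rw [Finset.mem_range] at hi
      omega
    have h3 : q ^ i ≤ q ^ d := Nat.pow_le_pow_right (by omega) hi'
    rw [if_neg]
    omega
  have hdeg : (car P).natDegree = q ^ d :=
    natDegree_eq_of_le_of_coeff_ne_zero hnle (by rw [hctop]; exact one_ne_zero)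
  set Ψ : (k[X])[X] := divX (car P) with hΨ
  have hfac : car P = X * Ψ := by
    have h3 := divX_mul_X_add (car P)
    rw [hc0, C_0, add_zero] at h3
    rw [mul_comm]
    exact h3.symm
  have hΨdeg : Ψ.natDegree = q ^ d - 1 := by
    rw [hΨ, natDegree_divX_eq_natDegree_tsub_one, hdeg]
  have hΨpos : 0 < Ψ.natDegree := by
    rw [hΨdeg]
    have : q ^ 1 ≤ q ^ d := Nat.pow_le_pow_right (by omega) hdpos
    rw [pow_one] at this
    omega
  have hΨmonic : Ψ.Monic := by
    unfold Monic leadingCoeff
    rw [hΨdeg, hΨ, coeff_divX, Nat.sub_add_cancel (hqpos d)]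
    exact hctop
  have hΨ0 : Ψ.coeff 0 = P := by
    rw [hΨ, coeff_divX]
    exact hc1
  have hprime : Prime P := hirr.prime
  have hIdeal : (Ideal.span {P} : Ideal k[X]).IsPrime :=
    (Ideal.span_singleton_prime hP0).2 hprime
  have hirrΨ : Irreducible Ψ := by
    refine irreducible_of_eisenstein_criterion hIdeal ?_ ?_ ?_ ?_ hΨmonic.isPrimitive
    · rw [hΨmonic.leadingCoeff, Ideal.mem_span_singleton]
      exact hprime.not_dvd_one
    · intro n hn
      have hn' : n < q ^ d - 1 := by
        rw [← hΨdeg]
        rw [degree_eq_natDegree hΨmonic.ne_zero] at hn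
        exact_mod_cast hn
      rw [hΨ, coeff_divX, hcoeff]
      refine Ideal.sum_mem _ fun i hi => ?_
      split_ifs with hni
      · rw [Ideal.mem_span_singleton]
        apply hdvd
        by_contra hcon
        push Not at hcon
        have : q ^ d ≤ q ^ i := Nat.pow_le_pow_right (by omega) hcon
        omega
      · exact Ideal.zero_mem _
    · exact natDegree_pos_iff_degree_pos.1 hΨpos
    · rw [hΨ0, Ideal.span_singleton_pow, Ideal.mem_span_singleton]
      intro hcon
      obtain ⟨c, hc⟩ := hcon
      apply hprime.not_dvd_one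
      refine ⟨c, ?_⟩
      have h3 : P * 1 = P * (P * c) := by
        calc P * 1 = P := mul_one P
          _ = P ^ 2 * c := hc
          _ = P * (P * c) := by ring
      exact mul_left_cancel₀ hP0 h3
  have hcastk : ((q : ℕ) : k) = 0 := Nat.cast_card_eq_zero k
  have hcast : ((q : ℕ) : (k[X])[X]) = 0 := by
    have h3 : ((q : ℕ) : (k[X])[X]) = C (C ((q : ℕ) : k)) := by simp
    rw [h3, hcastk, C_0, C_0]
  have hder : derivative (car P) = C P := by
    conv_lhs => rw [hform P]
    rw [derivative_sum]
    rw [Finset.sum_range_succ', Finset.sum_eq_zero]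
    · rw [hbr0 P, pow_zero, pow_one, derivative_C_mul, derivative_X, mul_one, zero_add]
    · intro i _
      rw [derivative_C_mul, derivative_X_pow]
      have h3 : C ((q ^ (i + 1) : ℕ) : k[X]) = 0 := by
        have h4 : C ((q ^ (i + 1) : ℕ) : k[X]) = ((q : ℕ) : (k[X])[X]) ^ (i + 1) := by
          push_cast
          simp
        rw [h4, hcast, zero_pow (Nat.succ_ne_zero i)]
      rw [h3, zero_mul, mul_zero]
  have hder2 : Ψ + X * derivative Ψ = C P := by
    rw [← hder, hfac, derivative_mul, derivative_X, one_mul]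
  have hinj : Function.Injective (algebraMap k[X] (RatFunc k)) :=
    IsFractionRing.injective k[X] (RatFunc k)
  have hPne : algebraMap k[X] (RatFunc k) P ≠ 0 := by
    intro h3
    exact hP0 (hinj (by rw [h3, map_zero]))
  have hsep : ((car P).map (algebraMap k[X] (RatFunc k))).Separable := by
    unfold Polynomial.Separable
    rw [derivative_map, hder, map_C]
    refine ⟨0, C (algebraMap k[X] (RatFunc k) P)⁻¹, ?_⟩
    rw [zero_mul, zero_add, ← C_mul, inv_mul_cancel₀ hPne, C_1]
  refine ⟨Ψ, hfac, hΨmonic, hΨdeg, hΨpos, hΨ0, hirrΨ, ?_, hder, hder2, hsep, ?_⟩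
  · exact (hΨmonic.irreducible_iff_irreducible_map_fraction_map (K := RatFunc k)).1 hirrΨ
  · rw [hfac, Polynomial.map_mul] at hsep
    exact hsep.of_mul_right

end Pool.Agent.W561.GK
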